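import Mathlib
import Pool.Agent.Helper579.Rates

set_option autoImplicit false

namespace Pool.Agent.Results.MP_83e7a5_an.GammaBUpper

/-- **Main result.** The maximal rate gain of randomized adaptive algorithms over deterministic
non-adaptive algorithms for continuous linear operators on convex sets (real or complex Banach
spaces) is at most `1`. -/
theorem result : Pool.Agent.Helper579.IBC.gammaB ≤ 1 :=
  Pool.Agent.Helper579.Rates.gammaB_le

end Pool.Agent.Results.MP_83e7a5_an.GammaBUpper
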