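import Mathlib
import Pool.Agent.Helper579.Rates

set_option autoImplicit false

namespace Pool.Agent.Results.MP_83e7a5_an.GammaHUpper

/-- **Main result.** If the target space is a Hilbert space, the maximal rate gain of randomized
adaptive algorithms over deterministic non-adaptive algorithms for continuous linear operators
on convex sets is at most `1 / 2`. -/
theorem result : Pool.Agent.Helper579.IBC.gammaH ≤ ((1 / 2 : ℝ) : EReal) :=
  Pool.Agent.Helper579.Rates.gammaH_le

end Pool.Agent.Results.MP_83e7a5_an.GammaHUpper
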